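import Pool.Agent.Y808.DR.Stm
import Pool.Agent.H379R3.Reg

/-! Project DR: regular local rings are integrally closed (from quasi-regularity). -/

set_option autoImplicit false

namespace Pool.Agent.Y47.DR

open Pool.Agent.Y808.DR IsLocalRing MvPolynomial

universe u

/-- divisibility from the powers -/
theorem dvd_of_pow {R : Type u} [CommRing R] [IsDomain R] [IsNoetherianRing R]
    [IsIntegrallyClosed R] {b c r : R} (hb : b ≠ 0) (hc : c ≠ 0)
    (h : ∀ n : ℕ, b ^ n ∣ c * r ^ n) : b ∣ r := by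
  have hinj := IsFractionRing.injective R (FractionRing R)
  have hb' : algebraMap R (FractionRing R) b ≠ 0 := fun e => hb (hinj (by rw [e, map_zero]))
  have h1 : IsAlmostIntegral R (algebraMap R (FractionRing R) r /
      algebraMap R (FractionRing R) b) := by
    refine ⟨c, mem_nonZeroDivisors_of_ne_zero hc, fun n => ?_⟩
    obtain ⟨s, hs⟩ := h n
    refine ⟨s, ?_⟩
    rw [Algebra.smul_def, div_pow, mul_div_assoc', eq_div_iff (pow_ne_zero n hb'), ← map_pow,
      ← map_pow, ← map_mul, ← map_mul, hs, mul_comm]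
  obtain ⟨y, hy⟩ := (isIntegrallyClosed_iff (FractionRing R)).1 inferInstance h1.isIntegral
  refine ⟨y, hinj ?_⟩
  rw [map_mul, hy]
  field_simp

section
variable {B : Type u} [CommRing B] [IsRegularLocalRing B]

theorem exists_gen : ∃ (d : ℕ) (z : Fin d → B), ringKrullDim B = d ∧
    Ideal.span (Set.range z) = maximalIdeal B := by
  let b := Module.finBasis (ResidueField B) (CotangentSpace B)
  choose z hz using fun i => Ideal.toCotangent_surjective (maximalIdeal B) (b i)
  exact ⟨_, fun i => (z i : B), Pool.Agent.H379R3.finrank_cotangent.symm,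
    Pool.Agent.H379R3.span_of_basis b z hz⟩

/-- the class of `r` modulo `m^(j+1)` is given by the form `g` -/
def Init {d : ℕ} (z : Fin d → B) (r : B) (j : ℕ)
    (g : MvPolynomial (Fin d) (ResidueField B)) : Prop :=
  ∃ G : MvPolynomial (Fin d) B, G.IsHomogeneous j ∧ MvPolynomial.map (residue B) G = g ∧
    r - MvPolynomial.eval z G ∈ maximalIdeal B ^ (j + 1)

variable {d : ℕ} {z : Fin d → B}

theorem eval_mem (hz : Ideal.span (Set.range z) = maximalIdeal B) {j : ℕ}
    {G : MvPolynomial (Fin d) B} (hG : G.IsHomogeneous j) :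
    MvPolynomial.eval z G ∈ maximalIdeal B ^ j := by
  rw [← hz]
  exact (Ideal.mem_span_pow_iff_exists_isHomogeneous z _).2 ⟨G, hG, rfl⟩

theorem init_mem (hz : Ideal.span (Set.range z) = maximalIdeal B) {r : B} {j : ℕ}
    {g : MvPolynomial (Fin d) (ResidueField B)} (h : Init z r j g) : r ∈ maximalIdeal B ^ j := by
  obtain ⟨G, h1, -, h3⟩ := h
  have h4 := Ideal.add_mem _ (Ideal.pow_le_pow_right (Nat.le_succ j) h3) (eval_mem hz h1)
  rwa [sub_add_cancel] at h4

theorem init_hom {r : B} {j : ℕ} {g : MvPolynomial (Fin d) (ResidueField B)}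
    (h : Init z r j g) : g.IsHomogeneous j := by
  obtain ⟨G, h1, h2, -⟩ := h
  rw [← h2]
  exact h1.map _

theorem exists_init (hz : Ideal.span (Set.range z) = maximalIdeal B) {r : B} {j : ℕ}
    (h : r ∈ maximalIdeal B ^ j) : ∃ g, Init z r j g := by
  rw [← hz] at h
  obtain ⟨G, h1, h2⟩ := (Ideal.mem_span_pow_iff_exists_isHomogeneous z _).1 h
  exact ⟨_, G, h1, rfl, by rw [h2, sub_self]; exact Ideal.zero_mem _⟩

theorem coeff_mem_iff {G : MvPolynomial (Fin d) B} :
    MvPolynomial.map (residue B) G = 0 ↔ ∀ s, G.coeff s ∈ maximalIdeal B := by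
  constructor
  · intro h s
    have h1 := congrArg (MvPolynomial.coeff s) h
    rw [MvPolynomial.coeff_map, MvPolynomial.coeff_zero] at h1
    exact (residue_eq_zero_iff _).1 h1
  · intro h
    ext s
    rw [MvPolynomial.coeff_map, MvPolynomial.coeff_zero]
    exact (residue_eq_zero_iff _).2 (h s)

theorem init_zero_mem (hz : Ideal.span (Set.range z) = maximalIdeal B) {r : B} {j : ℕ}
    (h : Init z r j 0) : r ∈ maximalIdeal B ^ (j + 1) := by
  obtain ⟨G, h1, h2, h3⟩ := h
  have h4 : MvPolynomial.eval z G ∈ maximalIdeal B ^ (j + 1) := by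
    rw [MvPolynomial.eval_eq]
    refine Ideal.sum_mem _ fun s hs => ?_
    rw [pow_succ']
    refine Ideal.mul_mem_mul (coeff_mem_iff.1 h2 s) ?_
    have h5 : MvPolynomial.eval z (MvPolynomial.monomial s (1 : B)) = ∏ i ∈ s.support, z i ^ s i := by
      rw [MvPolynomial.eval_monomial, one_mul]
      rfl
    rw [← h5]
    refine eval_mem hz (MvPolynomial.isHomogeneous_monomial 1 ?_)
    exact (h1.degree_eq_sum_deg_support hs).symm
  have h6 := Ideal.add_mem _ h3 h4
  rwa [sub_add_cancel] at h6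

theorem init_sub {r s : B} {j : ℕ} {g h : MvPolynomial (Fin d) (ResidueField B)}
    (hr : Init z r j g) (hs : Init z s j h) : Init z (r - s) j (g - h) := by
  obtain ⟨G, a1, a2, a3⟩ := hr
  obtain ⟨H, b1, b2, b3⟩ := hs
  refine ⟨G - H, a1.sub b1, by rw [map_sub, a2, b2], ?_⟩
  rw [map_sub]
  have := Ideal.sub_mem _ a3 b3
  have e : r - s - (MvPolynomial.eval z G - MvPolynomial.eval z H) =
      r - MvPolynomial.eval z G - (s - MvPolynomial.eval z H) := by ring
  rw [e]
  exact this

theorem init_mul (hz : Ideal.span (Set.range z) = maximalIdeal B) {r s : B} {j k : ℕ}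
    {g h : MvPolynomial (Fin d) (ResidueField B)}
    (hr : Init z r j g) (hs : Init z s k h) : Init z (r * s) (j + k) (g * h) := by
  have hs' := init_mem hz hs
  obtain ⟨G, a1, a2, a3⟩ := hr
  obtain ⟨H, b1, b2, b3⟩ := hs
  refine ⟨G * H, a1.mul b1, by rw [map_mul, a2, b2], ?_⟩
  rw [map_mul]
  have e : r * s - MvPolynomial.eval z G * MvPolynomial.eval z H =
      (r - MvPolynomial.eval z G) * s + MvPolynomial.eval z G * (s - MvPolynomial.eval z H) := by
    ring
  rw [e]
  refine Ideal.add_mem _ ?_ ?_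
  · have := Ideal.mul_mem_mul a3 hs'
    rw [← pow_add] at this
    have e2 : j + 1 + k = j + k + 1 := by omega
    rwa [e2] at this
  · have := Ideal.mul_mem_mul (eval_mem hz a1) b3
    rw [← pow_add] at this
    exact this

theorem init_one : Init z 1 0 1 :=
  ⟨1, MvPolynomial.isHomogeneous_one _ _, map_one _, by
    rw [map_one, sub_self]; exact Ideal.zero_mem _⟩

theorem init_pow (hz : Ideal.span (Set.range z) = maximalIdeal B) {r : B} {j : ℕ}
    {g : MvPolynomial (Fin d) (ResidueField B)} (hr : Init z r j g) (n : ℕ) :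
    Init z (r ^ n) (n * j) (g ^ n) := by
  induction n with
  | zero => simpa using init_one
  | succ n ih =>
    rw [pow_succ, pow_succ, Nat.succ_mul]
    exact init_mul hz ih hr

theorem init_of_mem {r : B} {j : ℕ} (h : r ∈ maximalIdeal B ^ (j + 1)) : Init z r j 0 :=
  ⟨0, MvPolynomial.isHomogeneous_zero _ _ _, map_zero _, by rwa [map_zero, sub_zero]⟩

theorem exists_init_ne (hz : Ideal.span (Set.range z) = maximalIdeal B) {r : B} (hr : r ≠ 0) :
    ∃ j g, g ≠ 0 ∧ Init z r j g := by
  classical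
  have h1 : ∃ i : ℕ, r ∉ maximalIdeal B ^ i := by
    by_contra h
    push Not at h
    have h2 : r ∈ ⨅ i : ℕ, maximalIdeal B ^ i := by
      rw [Submodule.mem_iInf]
      exact h
    rw [Ideal.iInf_pow_eq_bot_of_isLocalRing _ (maximalIdeal.isMaximal B).ne_top] at h2
    exact hr h2
  obtain ⟨j, hj⟩ : ∃ j, Nat.find h1 = j + 1 := by
    refine Nat.exists_eq_succ_of_ne_zero ?_
    intro h
    have h2 := Nat.find_spec h1
    rw [h, pow_zero] at h2
    exact h2 (by simp)
  have h3 : r ∈ maximalIdeal B ^ j := by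
    by_contra h
    have := Nat.find_min' h1 h
    omega
  have h4 : r ∉ maximalIdeal B ^ (j + 1) := by
    rw [← hj]
    exact Nat.find_spec h1
  obtain ⟨g, hg⟩ := exists_init hz h3
  refine ⟨j, g, ?_, hg⟩
  rintro rfl
  exact h4 (init_zero_mem hz hg)

/-- lifting a form -/
theorem lift_form {e : ℕ} {η : MvPolynomial (Fin d) (ResidueField B)} (h : η.IsHomogeneous e) :
    ∃ H : MvPolynomial (Fin d) B, H.IsHomogeneous e ∧ MvPolynomial.map (residue B) H = η := by
  obtain ⟨H, hH⟩ := MvPolynomial.map_surjective (residue B) residue_surjective η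
  refine ⟨MvPolynomial.homogeneousComponent e H,
    MvPolynomial.homogeneousComponent_isHomogeneous e H, ?_⟩
  rw [← MvPolynomial.homogeneousComponent_eq_self h, ← hH]
  ext s
  rw [MvPolynomial.coeff_map, MvPolynomial.coeff_homogeneousComponent,
    MvPolynomial.coeff_homogeneousComponent, MvPolynomial.coeff_map]
  split_ifs
  · rfl
  · exact map_zero _

end

section
attribute [local instance] MvPolynomial.gradedAlgebra

/-- a factor of a form -/
theorem factor {k : Type u} [Field k] {d j n : ℕ} {β ρ : MvPolynomial (Fin d) k}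
    (hβ : β.IsHomogeneous j) (hρ : ρ.IsHomogeneous n) (h0 : ρ ≠ 0) (h : β ∣ ρ) :
    ∃ e η, j + e = n ∧ η.IsHomogeneous e ∧ ρ = β * η := by
  classical
  obtain ⟨η, rfl⟩ := h
  have h1 := DirectSum.coe_decompose_mul_of_left_mem
    (MvPolynomial.homogeneousSubmodule (Fin d) k) (b := η) n
    ((MvPolynomial.mem_homogeneousSubmodule j β).2 hβ)
  rw [DirectSum.decompose_of_mem_same _ ((MvPolynomial.mem_homogeneousSubmodule n _).2 hρ)] at h1
  by_cases hj : j ≤ n
  · rw [if_pos hj] at h1
    refine ⟨n - j, _, by omega, ?_, h1⟩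
    exact (MvPolynomial.mem_homogeneousSubmodule _ _).1 (SetLike.coe_mem _)
  · rw [if_neg hj] at h1
    exact absurd h1 h0

end

section
variable {B : Type u} [CommRing B] [IsRegularLocalRing B] {d : ℕ} {z : Fin d → B}

theorem init_unique (hq : ∀ (j : ℕ) (G : MvPolynomial (Fin d) B), G.IsHomogeneous j →
      MvPolynomial.eval z G ∈ maximalIdeal B ^ (j + 1) → ∀ m, G.coeff m ∈ maximalIdeal B)
    {r : B} {j : ℕ} {g h : MvPolynomial (Fin d) (ResidueField B)}
    (hr : Init z r j g) (hs : Init z r j h) : g = h := by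
  have h1 := init_sub hr hs
  rw [sub_self] at h1
  obtain ⟨G, a1, a2, a3⟩ := h1
  have h2 : MvPolynomial.eval z G ∈ maximalIdeal B ^ (j + 1) := by
    have := Ideal.neg_mem_iff _ |>.2 a3
    rwa [zero_sub, neg_neg] at this
  have h3 := coeff_mem_iff.2 (hq j G a1 h2)
  rw [a2] at h3
  exact sub_eq_zero.1 h3

theorem init_deg (hz : Ideal.span (Set.range z) = maximalIdeal B)
    (hq : ∀ (j : ℕ) (G : MvPolynomial (Fin d) B), G.IsHomogeneous j →
      MvPolynomial.eval z G ∈ maximalIdeal B ^ (j + 1) → ∀ m, G.coeff m ∈ maximalIdeal B)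
    {r : B} {j k : ℕ} {g h : MvPolynomial (Fin d) (ResidueField B)}
    (hr : Init z r j g) (hs : Init z r k h) (hh : h ≠ 0) : j ≤ k := by
  by_contra hjk
  have h1 : r ∈ maximalIdeal B ^ (k + 1) :=
    Ideal.pow_le_pow_right (by omega) (init_mem hz hr)
  exact hh (init_unique hq hs (init_of_mem h1))

theorem step (hz : Ideal.span (Set.range z) = maximalIdeal B)
    (hq : ∀ (j : ℕ) (G : MvPolynomial (Fin d) B), G.IsHomogeneous j →
      MvPolynomial.eval z G ∈ maximalIdeal B ^ (j + 1) → ∀ m, G.coeff m ∈ maximalIdeal B)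
    {b c r : B} (hb : b ≠ 0) (hc : c ≠ 0) {N : ℕ} (hr : r ∈ maximalIdeal B ^ N)
    (h : ∀ n : ℕ, ∃ s, c * r ^ n = b ^ n * s) :
    ∃ y, r - b * y ∈ maximalIdeal B ^ (N + 1) := by
  obtain ⟨ρ, hρ⟩ := exists_init hz hr
  by_cases h0 : ρ = 0
  · subst h0
    exact ⟨0, by rw [mul_zero, sub_zero]; exact init_zero_mem hz hρ⟩
  obtain ⟨k, β, hβ0, hβ⟩ := exists_init_ne hz hb
  obtain ⟨l, γ, hγ0, hγ⟩ := exists_init_ne hz hc
  have key : ∀ n : ℕ, β ^ n ∣ γ * ρ ^ n := by
    intro n
    obtain ⟨s, hs⟩ := h n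
    have e1 := init_mul hz hγ (init_pow hz hρ n)
    have e0 : γ * ρ ^ n ≠ 0 := mul_ne_zero hγ0 (pow_ne_zero n h0)
    have hs0 : s ≠ 0 := by
      rintro rfl
      rw [mul_zero] at hs
      rw [hs] at e1
      exact e0 (init_unique hq e1 (init_of_mem (Ideal.zero_mem _)))
    obtain ⟨e, σ, hσ0, hσ⟩ := exists_init_ne hz hs0
    have e2 := init_mul hz (init_pow hz hβ n) hσ
    have e3 : β ^ n * σ ≠ 0 := mul_ne_zero (pow_ne_zero n hβ0) hσ0
    rw [← hs] at e2
    have e4 := le_antisymm (init_deg hz hq e1 e2 e3) (init_deg hz hq e2 e1 e0)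
    rw [← e4] at e2
    exact ⟨σ, init_unique hq e1 e2⟩
  have hdvd : β ∣ ρ := dvd_of_pow hβ0 hγ0 key
  obtain ⟨e, η, he, hη, hη2⟩ := factor (init_hom hβ) (init_hom hρ) h0 hdvd
  obtain ⟨H, hH1, hH2⟩ := lift_form hη
  refine ⟨MvPolynomial.eval z H, ?_⟩
  have h1 : Init z (MvPolynomial.eval z H) e η := ⟨H, hH1, hH2, by
    rw [sub_self]; exact Ideal.zero_mem _⟩
  have h2 := init_mul hz hβ h1
  rw [he, ← hη2] at h2
  have h3 := init_sub hρ h2
  rw [sub_self] at h3
  exact init_zero_mem hz h3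

theorem dvd_of_approx {a b : B} (h : ∀ N : ℕ, ∃ y, a - b * y ∈ maximalIdeal B ^ N) : b ∣ a := by
  have h1 : (Ideal.Quotient.mk (Ideal.span {b}) a) = 0 := by
    have h2 : (Ideal.Quotient.mk (Ideal.span {b}) a) ∈
        (⨅ i : ℕ, maximalIdeal B ^ i • ⊤ : Submodule B (B ⧸ Ideal.span {b})) := by
      rw [Submodule.mem_iInf]
      intro N
      obtain ⟨y, hy⟩ := h N
      have h3 : (Ideal.Quotient.mk (Ideal.span {b}) a) =
          (a - b * y) • (1 : B ⧸ Ideal.span {b}) := by
        rw [Algebra.smul_def, mul_one]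
        change Ideal.Quotient.mk (Ideal.span {b}) a = Ideal.Quotient.mk (Ideal.span {b}) (a - b * y)
        rw [Ideal.Quotient.eq, sub_sub_cancel]
        exact Ideal.mul_mem_right _ _ (Ideal.mem_span_singleton_self b)
      rw [h3]
      exact Submodule.smul_mem_smul hy Submodule.mem_top
    rw [Ideal.iInf_pow_smul_eq_bot_of_isLocalRing _ (maximalIdeal.isMaximal B).ne_top] at h2
    exact h2
  rw [Ideal.Quotient.eq_zero_iff_mem, Ideal.mem_span_singleton] at h1
  exact h1

end

theorem t_NORM : S_QR.{u} → S_NORM.{u} := by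
  intro hQR B _ _ _
  have : IsDomain B := Pool.Agent.H379R3.isDomain B
  obtain ⟨d, z, hd, hz⟩ := exists_gen (B := B)
  have hq := hQR B d z hd hz
  rw [isIntegrallyClosed_iff (FractionRing B)]
  intro x hx
  obtain ⟨a, b, hb, hab⟩ := IsFractionRing.div_surjective (A := B) x
  have hinj := IsFractionRing.injective B (FractionRing B)
  have hb0 : b ≠ 0 := nonZeroDivisors.ne_zero hb
  have hb' : algebraMap B (FractionRing B) b ≠ 0 := fun e => hb0 (hinj (by rw [e, map_zero]))
  have hdvd : b ∣ a := by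
    refine dvd_of_approx fun N => ?_
    induction N with
    | zero => exact ⟨0, by simp⟩
    | succ N ih =>
      obtain ⟨y, hy⟩ := ih
      have h1 : IsIntegral B (x - algebraMap B (FractionRing B) y) := hx.sub isIntegral_algebraMap
      obtain ⟨c, hc, h2⟩ := h1.isAlmostIntegral
      have h3 : x - algebraMap B (FractionRing B) y =
          algebraMap B (FractionRing B) (a - b * y) / algebraMap B (FractionRing B) b := by
        rw [← hab, map_sub, map_mul]
        field_simp
      obtain ⟨y', hy'⟩ := step hz hq hb0 (nonZeroDivisors.ne_zero hc) hy (fun n => by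
        obtain ⟨s, hs⟩ := h2 n
        refine ⟨s, hinj ?_⟩
        rw [h3, Algebra.smul_def, div_pow, mul_div_assoc', eq_div_iff (pow_ne_zero n hb')] at hs
        rw [map_mul, map_pow, ← hs, map_mul, map_pow, mul_comm])
      exact ⟨y + y', by
        have e : a - b * (y + y') = a - b * y - b * y' := by ring
        rw [e]
        exact hy'⟩
  obtain ⟨y, rfl⟩ := hdvd
  refine ⟨y, ?_⟩
  rw [← hab, map_mul]
  field_simp

end Pool.Agent.Y47.DR
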